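import Mathlib

/-!
# Regular powers in `π`-regular rings

In a `π`-regular ring every element `a` has regular powers `a ^ (m * k)` for every given `m ≥ 1`
(apply `π`-regularity to `a ^ m`).  In particular there is no element all of whose powers `a ^ k`,
`k ≥ 2`, fail to be regular.
-/

set_option autoImplicit false

universe u

namespace Pool.Agent.Results.MP_59f064_al.NoSuchElement

/-- Von Neumann regular elements: `a ∈ a R a`. -/
def IsReg {R : Type u} [Ring R] (a : R) : Prop := ∃ x : R, a = a * x * a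

/-- `π`-regular rings: every element has a regular positive power. -/
def PiRegular (R : Type u) [Ring R] : Prop := ∀ a : R, ∃ n : ℕ, 1 ≤ n ∧ IsReg (a ^ n)

/-- **Negative answer to Q1**: no `π`-regular ring has a regular element `a` such that `a ^ k` is
not regular for every `k ≥ 2`.  Moreover every element of a `π`-regular ring has regular powers
with exponent a multiple of any given `m ≥ 1`. -/
theorem result :
    (¬ ∃ (R : Type u) (_ : Ring R) (a : R), PiRegular R ∧ IsReg a ∧ ∀ k : ℕ, 2 ≤ k → ¬ IsReg (a ^ k)) ∧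
    (∀ (R : Type u) [Ring R], PiRegular R → ∀ (a : R) (m : ℕ), 1 ≤ m →
      ∃ k : ℕ, 1 ≤ k ∧ IsReg (a ^ (m * k))) := by
  have h : ∀ (R : Type u) [Ring R], PiRegular R → ∀ (a : R) (m : ℕ), 1 ≤ m →
      ∃ k : ℕ, 1 ≤ k ∧ IsReg (a ^ (m * k)) := by
    intro R _ hR a m _
    obtain ⟨k, hk, hreg⟩ := hR (a ^ m)
    exact ⟨k, hk, by rwa [pow_mul]⟩
  refine ⟨?_, h⟩
  rintro ⟨R, _, a, hR, _, hk⟩
  obtain ⟨k, hk1, hreg⟩ := h R hR a 2 one_le_two
  exact hk (2 * k) (by omega) hreg

end Pool.Agent.Results.MP_59f064_al.NoSuchElement
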